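import Pool.Agent.Helper97.LogFPP.U.Final

/-!
# Small-xi behaviour of the exponent: 1 - xi Q(xi) = xi^(4/3 + o(1)) in every dimension

For every dimension `d ≥ 2` and every admissible kernel there are `c, C, ξ0 > 0` such that
`c ξ^(4/3) ≤ 1 - ξ Q(ξ) ≤ C ξ^(4/3) log (1/ξ)` for all `0 < ξ < ξ0`; in particular
`log (1 - ξ Q(ξ)) / log ξ → 4/3` as `ξ → 0`.
-/

set_option autoImplicit false

open MeasureTheory ProbabilityTheory Filter Topology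

namespace Pool.Agent.Results.MP_71c74a_pr.SmallXiExponent

open Pool.Agent.Helper97.LogFPP

theorem result {d : ℕ} [NeZero d] (hd : 2 ≤ d) (K : Pt d → ℝ) (hK : IsKernel K) :
    (∃ c C ξ0 : ℝ, 0 < c ∧ 0 < C ∧ 0 < ξ0 ∧ ∀ ξ : ℝ, 0 < ξ → ξ < ξ0 →
      ∀ (Ω : Type) [MeasurableSpace Ω] (P : Measure Ω) (h : ℕ → Pt d → Ω → ℝ), IsField K P h →
        ∀ Q : ℝ, IsExponent P h ξ Q → c * ξ ^ (4 / 3 : ℝ) ≤ 1 - ξ * Q ∧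
          1 - ξ * Q ≤ C * (ξ ^ (4 / 3 : ℝ) * Real.log (1 / ξ))) ∧
    ∀ (Ω : Type) [MeasurableSpace Ω] (P : Measure Ω) (h : ℕ → Pt d → Ω → ℝ), IsField K P h →
      ∀ Q : ℝ → ℝ, (∀ ξ : ℝ, 0 < ξ → IsExponent P h ξ (Q ξ)) →
        Tendsto (fun ξ => Real.log (1 - ξ * Q ξ) / Real.log ξ) (𝓝[>] 0) (𝓝 (4 / 3)) := by
  obtain ⟨c, C, ξ0, hc, hC, hξ0, H⟩ := both hd hK
  refine ⟨⟨c, C, ξ0, hc, hC, hξ0, fun ξ h1 h2 Ω _ P h hh Q hQ => H ξ h1 h2 P h hh Q hQ⟩, ?_⟩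
  intro Ω _ P h hh Q hQ
  exact tendsto_exponent hc hC hξ0 fun ξ h1 h2 => H ξ h1 h2 P h hh (Q ξ) (hQ ξ h1)

end Pool.Agent.Results.MP_71c74a_pr.SmallXiExponent
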